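import Pool.Agent.H59.BMOA.Nec3

/-!
# The set `r(BMOA)`

For a square summable sequence `a`, the random power series `∑ a_k e^{iα_k} z^k` with independent
angles `α_k`, uniform on `[0, 2π]`, belongs to `BMOA` almost surely if and only if the entropy
condition `EntropyBounded a` holds.

The definitions used (`powSer`, `IsBoundary`, `BoundedMeanOsc`, `InBMOA`, `rhoSq`, `entNum`,
`EntropyBounded`) are in `Pool/Agent/H59/BMOA/Def.lean`.
-/

namespace Pool.Agent.Results.MP_e603cf_an.BMOAFull

open MeasureTheory ProbabilityTheory H59.RB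

/-- Complete description of `r(BMOA)`. -/
theorem result {Ω : Type*} [MeasurableSpace Ω] (P : Measure Ω) [IsProbabilityMeasure P]
    (α : ℕ → Ω → ℝ) (hmeas : ∀ k, Measurable (α k)) (hindep : iIndepFun α P)
    (hunif : ∀ k, pdf.IsUniform (α k) (Set.Icc 0 (2 * Real.pi)) P volume)
    (a : ℕ → ℂ) (ha : Summable (fun k => ‖a k‖ ^ 2)) :
    (∀ᵐ ω ∂P, InBMOA (fun k => a k * Complex.exp (α k ω * Complex.I))) ↔ EntropyBounded a := by
  have hS : Stein P (fun k ω => Complex.exp (α k ω * Complex.I)) :=
    stein_of_unif α hmeas hindep hunif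
  exact ⟨fun h => necessity hS a ha h, fun h => sufficiency hS a ha h⟩

end Pool.Agent.Results.MP_e603cf_an.BMOAFull
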